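import Pool.Agent.W402.HI.Defs

set_option autoImplicit false
set_option linter.all false

open Filter Topology MeasureTheory Metric Polynomial

namespace Pool.Agent.W85.HI.E1

theorem norm_pow_le2 {F : Type} [NormedAddCommGroup F] [NormedSpace ℂ F] (N : F →L[ℂ] F) (i : ℕ) :
    ‖N ^ i‖ ≤ ‖N‖ ^ i := by
  rcases Nat.eq_zero_or_pos i with h | h
  · subst h
    simp only [pow_zero]
    exact ContinuousLinearMap.norm_id_le
  · exact norm_pow_le' N h

/-- forget continuity -/
def fgt (F : Type) [NormedAddCommGroup F] [NormedSpace ℂ F] : (F →L[ℂ] F) →ₐ[ℂ] (F →ₗ[ℂ] F) :=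
  { ContinuousLinearMap.toLinearMapRingHom with commutes' := fun r => rfl }

theorem main : Pool.Agent.W402.HI.P_E1 := by
  intro F _ _ _ N
  set f : F →ₗ[ℂ] F := (N : F →ₗ[ℂ] F) with hf
  set m := Module.finrank ℂ F with hm
  set p := f.charpoly with hp
  have hmon : p.Monic := LinearMap.charpoly_monic f
  have hdeg : p.natDegree = m := LinearMap.charpoly_natDegree f
  have hroots : ∀ z ∈ (p.map (RingHom.id ℂ)).roots, ‖z‖ ≤ ‖N‖ := by
    intro z hz
    rw [Polynomial.map_id, Polynomial.mem_roots hmon.ne_zero] at hz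
    have h1 : Module.End.HasEigenvalue f z := (Module.End.hasEigenvalue_iff_isRoot_charpoly f z).2 hz
    obtain ⟨v, hv⟩ := h1.exists_hasEigenvector
    have h2 : f v = z • v := hv.apply_eq_smul
    have h3 : ‖z‖ * ‖v‖ ≤ ‖N‖ * ‖v‖ := by
      rw [← norm_smul, ← h2]
      exact N.le_opNorm v
    exact le_of_mul_le_mul_right h3 (norm_pos_iff.mpr hv.2)
  have hcoef : ∀ i, ‖p.coeff i‖ ≤ ‖N‖ ^ (m - i) * m.choose i := by
    intro i
    have h := Polynomial.coeff_le_of_roots_le (f := RingHom.id ℂ) i hmon
      (IsAlgClosed.splits _) hroots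
    rw [Polynomial.map_id, hdeg] at h
    exact h
  have hdet : ‖LinearMap.det f‖ = ‖p.coeff 0‖ := by
    rw [LinearMap.det_eq_sign_charpoly_coeff, norm_mul, norm_pow, norm_neg, norm_one, one_pow,
      one_mul]
  refine ⟨?_, ?_⟩
  · rw [hdet]
    have := hcoef 0
    simpa using this
  · intro hne
    have hc0 : p.coeff 0 ≠ 0 := by
      intro h
      rw [h, norm_zero, norm_eq_zero] at hdet
      exact hne hdet
    have hae : aeval N p = 0 := by
      have h1 : aeval f p = 0 := LinearMap.aeval_self_charpoly f
      have h2 : aeval (fgt F N) p =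
        fgt F (aeval N p) := Polynomial.aeval_algHom_apply _ _ _
      have h3 : fgt F (aeval N p) = 0 := by
        rw [← h2]; exact h1
      ext x
      exact congrArg (fun g : F →ₗ[ℂ] F => g x) h3
    have hdiv : aeval N p.divX * N + algebraMap ℂ (F →L[ℂ] F) (p.coeff 0) = 0 := by
      have h := congrArg (aeval N) (Polynomial.divX_mul_X_add p)
      rw [map_add, map_mul, aeval_X, aeval_C, hae] at h
      exact h
    have hcomm : aeval N p.divX * N = N * aeval N p.divX := by
      have h : aeval N (p.divX * X) = aeval N (X * p.divX) := by rw [mul_comm]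
      rwa [map_mul, map_mul, aeval_X] at h
    have hL : (-(p.coeff 0)⁻¹ • aeval N p.divX) * N = 1 := by
      rw [smul_mul_assoc, eq_neg_of_add_eq_zero_left hdiv, Algebra.algebraMap_eq_smul_one]
      rw [smul_neg, neg_smul, neg_neg, smul_smul, inv_mul_cancel₀ hc0, one_smul]
    refine ⟨-(p.coeff 0)⁻¹ • aeval N p.divX, hL, ?_, ?_⟩
    · rw [mul_smul_comm, ← hcomm, ← smul_mul_assoc]; exact hL
    · rw [norm_smul, norm_neg, norm_inv, hdet]
      rw [inv_mul_eq_div]
      apply div_le_div_of_nonneg_right _ (norm_nonneg _)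
      have hB : 0 ≤ ‖N‖ := norm_nonneg _
      rcases Nat.eq_zero_or_pos m with h0 | hpos
      · have : Subsingleton F := Module.finrank_zero_iff.mp h0
        have h0' : aeval N p.divX = 0 := Subsingleton.elim _ _
        rw [h0', norm_zero]
        positivity
      · have hdd : p.divX.natDegree < m := by
          rw [Polynomial.natDegree_divX_eq_natDegree_tsub_one, hdeg]; omega
        rw [Polynomial.aeval_eq_sum_range' hdd]
        calc ‖∑ i ∈ Finset.range m, p.divX.coeff i • N ^ i‖
            ≤ ∑ i ∈ Finset.range m, ‖p.divX.coeff i • N ^ i‖ := norm_sum_le _ _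
          _ ≤ ∑ i ∈ Finset.range m, (m.choose (i + 1) : ℝ) * (1 + ‖N‖) ^ m := by
              apply Finset.sum_le_sum
              intro i hi
              rw [Finset.mem_range] at hi
              rw [norm_smul, Polynomial.coeff_divX]
              calc ‖p.coeff (i + 1)‖ * ‖N ^ i‖
                  ≤ (‖N‖ ^ (m - (i + 1)) * m.choose (i + 1)) * ‖N‖ ^ i :=
                    mul_le_mul (hcoef _) (norm_pow_le2 N i) (norm_nonneg _) (by positivity)
                _ = m.choose (i + 1) * ‖N‖ ^ (m - 1) := by
                    have : m - 1 = (m - (i + 1)) + i := by omega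
                    rw [this, pow_add]; ring
                _ ≤ m.choose (i + 1) * (1 + ‖N‖) ^ m := by
                    apply mul_le_mul_of_nonneg_left _ (by positivity)
                    calc ‖N‖ ^ (m - 1) ≤ (1 + ‖N‖) ^ (m - 1) :=
                          pow_le_pow_left₀ hB (by linarith) _
                      _ ≤ (1 + ‖N‖) ^ m := pow_le_pow_right₀ (by linarith) (by omega)
          _ = (∑ i ∈ Finset.range m, (m.choose (i + 1) : ℝ)) * (1 + ‖N‖) ^ m := by
              rw [Finset.sum_mul]
          _ ≤ 2 ^ m * (1 + ‖N‖) ^ m := by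
              apply mul_le_mul_of_nonneg_right _ (by positivity)
              have h := Nat.sum_range_choose m
              rw [Finset.sum_range_succ'] at h
              have h' : (∑ i ∈ Finset.range m, m.choose (i + 1)) ≤ 2 ^ m := by omega
              exact_mod_cast h'

end Pool.Agent.W85.HI.E1
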